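import Mathlib
import Pool.Agent.Lib.MP_0d06d9_alR.Main

/-!
# Schur-Zassenhaus situation, sparse groups: a finite series of `[H, K₀]` with locally nilpotent
factors (the conclusion of Q1)
-/

set_option autoImplicit false

open MP0d06d9 MP0d06d9I Subgroup

namespace Pool.Agent.Results.MP_0d06d9_al.LocallyNilpotentSeries

/-- Let `G` be a locally finite group, `H` a normal `π'`-subgroup and `K` a locally soluble
`π`-subgroup, `2 ∉ π` (`G = H K` is the situation of the problem; `H ⊔ K = ⊤` is not needed), and
suppose that `G` is `S_π`-sparse. Suppose that the nonabelian simple sections of the finite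
subgroups of `H` are of Galois type for `π`. Then `K` has a subgroup `K₀` of finite index such that
`[H, K₀]` has a finite series with locally nilpotent factors. -/
theorem result {G : Type*} [Group G] (lf : LocFin G) (π : Set ℕ) (H K : Subgroup G)
    (hn : H.Normal) (hH : IsPi πᶜ H) (hK : IsPi π K) (h2 : 2 ∉ π) (hs : LocSol K)
    (hsp : Sparse H K) (hsec : SecGalois π H) :
    ∃ K₀ : Subgroup G, K₀ ≤ K ∧ K₀.relIndex K ≠ 0 ∧ LNSeries (⁅H, K₀⁆ : Subgroup G) :=
  full lf hn hH hK h2 hs hsp hsec

end Pool.Agent.Results.MP_0d06d9_al.LocallyNilpotentSeries
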