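import Mathlib
import Pool.Agent.Lib.MP_0d06d9_al.Main

/-!
# Schur-Zassenhaus situation, sparse groups: simple `H`
-/

set_option autoImplicit false

open MP0d06d9 Subgroup

namespace Pool.Agent.Results.MP_0d06d9_al.SimpleH

/-- Let `G` be a locally finite group, `H` a normal `π'`-subgroup and `K` a `π`-subgroup (so that
`G = H K` is the situation of the problem; `H ⊔ K = ⊤` is not needed), let `K` or `H` be locally
soluble, and suppose that `G` is `S_π`-sparse. Suppose that the nonabelian simple sections of the
finite subgroups of `H` are of Galois type for `π`. If `H` is simple then `K / C_K(H)` is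
finite. -/
theorem result {G : Type*} [Group G] (lf : LocFin G) (π : Set ℕ) (H K : Subgroup G)
    (hn : H.Normal) (hH : IsPi πᶜ H) (hK : IsPi π K) (hs : LocSol K ∨ LocSol H)
    (hsp : Sparse H K) (hsec : SecGalois π H) (hsim : IsSimpleGroup H) :
    (centralizer (H : Set G)).relIndex K ≠ 0 :=
  main2 lf π H K hn hH hK hs hsp hsec hsim

end Pool.Agent.Results.MP_0d06d9_al.SimpleH
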